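import Mathlib
import Pool.Agent.Work.MP_8efaaa_nt.T.Fin
import Pool.Agent.Work.MP_8efaaa_nt.N7.EMain
import Pool.Agent.Work.MP_8efaaa_nt.N5.Fin8
import Pool.Agent.Work.MP_8efaaa_nt.Rf.FRi

/-!
# NC/Main: the classes 5 and 7 together, the quadratic field of discriminant `a` or `-a`

`F` the quadratic field of discriminant `a` (`a = 5 (mod 8)`) or `-a` (`a = 7 (mod 8)`), `v` a prime ideal above `2`.
If `8` does not divide the index in the narrow class group of the subgroup generated by the square of the class of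
`v`, then `a` is congruent.
-/

set_option autoImplicit false

namespace Pool.Agent.Work.MP_8efaaa_nt.NC

open NumberField IsDedekindDomain Pool.Agent.Work.MP_8efaaa_nt
open Pool.Agent.Work.MP_787500_nt.HC
open scoped nonZeroDivisors

variable {F : Type*} [Field F] [NumberField F]

/-- the set of the generators -/
def gens (v : HeightOneSpectrum (𝓞 F)) : Set (FractionalIdeal (𝓞 F)⁰ F)ˣ :=
  {I | (I : FractionalIdeal (𝓞 F)⁰ F) = (v.asIdeal : FractionalIdeal (𝓞 F)⁰ F) ^ 2 ∨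
    ∃ x : F, 0 < Algebra.norm ℚ x ∧
      (I : FractionalIdeal (𝓞 F)⁰ F) = FractionalIdeal.spanSingleton (𝓞 F)⁰ x}

section norm

variable {d : ℤ} {f : F}

private theorem lin0 (hf : f ^ 2 = (d : F)) (hd : ∀ w : ℚ, w ^ 2 ≠ d) {r s : ℚ}
    (h : (r : F) + (s : F) * f = 0) : r = 0 ∧ s = 0 := by
  have h1 : ((r ^ 2 : ℚ) : F) = ((s ^ 2 * d : ℚ) : F) := by
    push_cast
    linear_combination ((r : F) - s * f) * h + (s : F) ^ 2 * hf
  have h2 : r ^ 2 = s ^ 2 * d := by exact_mod_cast h1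
  have hs : s = 0 := by
    by_contra hs
    apply hd (r / s)
    rw [div_pow, h2]
    field_simp
  refine ⟨?_, hs⟩
  rw [hs] at h2
  simpa using h2

private theorem linind (hf : f ^ 2 = (d : F)) (hd : ∀ w : ℚ, w ^ 2 ≠ d) :
    LinearIndependent ℚ ![(1 : F), f] := by
  rw [LinearIndependent.pair_iff]
  intro r s hrs
  exact lin0 hf hd (by simpa [Algebra.smul_def] using hrs)

private noncomputable def bas (hF : Module.finrank ℚ F = 2) (hf : f ^ 2 = (d : F))
    (hd : ∀ w : ℚ, w ^ 2 ≠ d) : Module.Basis (Fin 2) ℚ F :=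
  basisOfLinearIndependentOfCardEqFinrank (linind hf hd) (by simp [hF])

private theorem bas_zero (hF : Module.finrank ℚ F = 2) (hf : f ^ 2 = (d : F))
    (hd : ∀ w : ℚ, w ^ 2 ≠ d) : bas hF hf hd 0 = 1 := by simp [bas]

private theorem bas_one (hF : Module.finrank ℚ F = 2) (hf : f ^ 2 = (d : F))
    (hd : ∀ w : ℚ, w ^ 2 ≠ d) : bas hF hf hd 1 = f := by simp [bas]

private theorem repr_eq (hF : Module.finrank ℚ F = 2) (hf : f ^ 2 = (d : F))
    (hd : ∀ w : ℚ, w ^ 2 ≠ d) (r s : ℚ) :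
    ((bas hF hf hd).repr ((r : F) + (s : F) * f)) 0 = r ∧
      ((bas hF hf hd).repr ((r : F) + (s : F) * f)) 1 = s := by
  have h1 : (r : F) + (s : F) * f = r • bas hF hf hd 0 + s • bas hF hf hd 1 := by
    rw [bas_zero, bas_one, Algebra.smul_def, Algebra.smul_def]
    simp
  rw [h1]
  simp

private theorem exK (hF : Module.finrank ℚ F = 2) (hf : f ^ 2 = (d : F))
    (hd : ∀ w : ℚ, w ^ 2 ≠ d) (x : F) : ∃ r s : ℚ, x = (r : F) + (s : F) * f := by
  refine ⟨(bas hF hf hd).repr x 0, (bas hF hf hd).repr x 1, ?_⟩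
  conv_lhs => rw [← (bas hF hf hd).sum_repr x]
  rw [Fin.sum_univ_two, bas_zero, bas_one, Algebra.smul_def, Algebra.smul_def]
  simp

private theorem mat (hF : Module.finrank ℚ F = 2) (hf : f ^ 2 = (d : F))
    (hd : ∀ w : ℚ, w ^ 2 ≠ d) (r s : ℚ) :
    Algebra.leftMulMatrix (bas hF hf hd) ((r : F) + (s : F) * f) = !![r, d * s; s, r] := by
  have e1 : ((r : F) + (s : F) * f) * bas hF hf hd 1 =
      ((d * s : ℚ) : F) + (r : F) * f := by
    rw [bas_one]
    push_cast
    linear_combination (s : F) * hf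
  ext i j
  rw [Algebra.leftMulMatrix_eq_repr_mul]
  fin_cases j
  · show ((bas hF hf hd).repr (((r : F) + (s : F) * f) * bas hF hf hd 0)) i = _
    rw [bas_zero, mul_one]
    fin_cases i
    · exact (repr_eq hF hf hd r s).1
    · exact (repr_eq hF hf hd r s).2
  · show ((bas hF hf hd).repr (((r : F) + (s : F) * f) * bas hF hf hd 1)) i = _
    rw [e1]
    fin_cases i
    · exact (repr_eq hF hf hd _ _).1
    · exact (repr_eq hF hf hd _ _).2

private theorem normK (hF : Module.finrank ℚ F = 2) (hf : f ^ 2 = (d : F))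
    (hd : ∀ w : ℚ, w ^ 2 ≠ d) (r s : ℚ) :
    Algebra.norm ℚ ((r : F) + (s : F) * f) = r ^ 2 - d * s ^ 2 := by
  rw [Algebra.norm_eq_matrix_det (bas hF hf hd), mat, Matrix.det_fin_two]
  simp
  ring

end norm

/-- principal ideals are the kernel of the class map -/
private theorem ker_iff (I : (FractionalIdeal (𝓞 F)⁰ F)ˣ) :
    I ∈ (ClassGroup.mk F : (FractionalIdeal (𝓞 F)⁰ F)ˣ →* ClassGroup (𝓞 F)).ker ↔
      ∃ x : F, x ≠ 0 ∧ (I : FractionalIdeal (𝓞 F)⁰ F) = FractionalIdeal.spanSingleton (𝓞 F)⁰ x := by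
  rw [MonoidHom.mem_ker, ClassGroup.mk_eq_one_iff]
  constructor
  · intro h
    obtain ⟨x, hx⟩ := (FractionalIdeal.isPrincipal_iff _).1 h
    refine ⟨x, ?_, hx⟩
    rintro rfl
    rw [FractionalIdeal.spanSingleton_zero] at hx
    exact I.ne_zero hx
  · rintro ⟨x, -, hx⟩
    exact (FractionalIdeal.isPrincipal_iff _).2 ⟨x, hx⟩

/-- the predicate of the ideals with a generator of positive norm -/
private def Pp (I : (FractionalIdeal (𝓞 F)⁰ F)ˣ) : Prop :=
  ∃ x : F, 0 < Algebra.norm ℚ x ∧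
    (I : FractionalIdeal (𝓞 F)⁰ F) = FractionalIdeal.spanSingleton (𝓞 F)⁰ x

private theorem index_map_eq (N : Subgroup (FractionalIdeal (𝓞 F)⁰ F)ˣ)
    (h : (ClassGroup.mk F : (FractionalIdeal (𝓞 F)⁰ F)ˣ →* ClassGroup (𝓞 F)).ker ≤ N) :
    (N.map (ClassGroup.mk F)).index = N.index := by
  rw [Subgroup.index_map, sup_eq_left.2 h]
  have hsurj : (ClassGroup.mk F : (FractionalIdeal (𝓞 F)⁰ F)ˣ →* ClassGroup (𝓞 F)).range = ⊤ := by
    rw [MonoidHom.range_eq_top]
    intro c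
    obtain ⟨I, rfl⟩ := ClassGroup.mk0_surjective c
    exact ⟨FractionalIdeal.mk0 F I, ClassGroup.mk_mk0 F I⟩
  rw [hsurj, Subgroup.index_top, mul_one]

private theorem mk_pr (v : HeightOneSpectrum (𝓞 F)) :
    ClassGroup.mk F (pr v) = ClassGroup.mk0 ⟨v.asIdeal, mem_nonZeroDivisors_of_ne_zero v.ne_bot⟩ := by
  rw [← ClassGroup.mk_mk0 F]
  rfl

/-- the class 7 -/
private theorem index7 (hF : Module.finrank ℚ F = 2) {a : ℕ} (ha : a % 8 = 7) {f : F}
    (hf : f ^ 2 = -(a : F)) (v : HeightOneSpectrum (𝓞 F)) :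
    (Subgroup.closure (gens v)).index = (Subgroup.zpowers
      (ClassGroup.mk0 ⟨v.asIdeal, mem_nonZeroDivisors_of_ne_zero v.ne_bot⟩ ^ 2)).index := by
  have ha0 : (0 : ℚ) < a := by
    have : 0 < a := by omega
    exact_mod_cast this
  have hd : ∀ w : ℚ, w ^ 2 ≠ ((-(a : ℤ) : ℤ) : ℚ) := by
    intro w h
    push_cast at h
    nlinarith [sq_nonneg w]
  have hf' : f ^ 2 = ((-(a : ℤ) : ℤ) : F) := by
    rw [hf]
    push_cast
    rfl
  have hpos : ∀ x : F, x ≠ 0 → 0 < Algebra.norm ℚ x := by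
    intro x hx
    obtain ⟨r, s, rfl⟩ := exK hF hf' hd x
    rw [normK hF hf' hd]
    push_cast
    by_contra hc
    have h1 : r ^ 2 + a * s ^ 2 ≤ 0 := by linarith
    have h2 : 0 ≤ a * s ^ 2 := mul_nonneg ha0.le (sq_nonneg s)
    have h3 : r ^ 2 = 0 := le_antisymm (by linarith) (sq_nonneg r)
    have h4 : a * s ^ 2 = 0 := le_antisymm (by linarith [sq_nonneg r]) h2
    have h5 : r = 0 := by simpa using h3
    have h6 : s = 0 := by
      rcases mul_eq_zero.1 h4 with h | h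
      · exact absurd h ha0.ne'
      · simpa using h
    apply hx
    rw [h5, h6]
    simp
  have hker : (ClassGroup.mk F : (FractionalIdeal (𝓞 F)⁰ F)ˣ →* ClassGroup (𝓞 F)).ker ≤
      Subgroup.closure (gens v) := by
    intro I hI
    obtain ⟨x, hx0, hx⟩ := (ker_iff I).1 hI
    exact Subgroup.subset_closure (Or.inr ⟨x, hpos x hx0, hx⟩)
  rw [← index_map_eq _ hker]
  congr 1
  rw [MonoidHom.map_closure]
  apply le_antisymm
  · rw [Subgroup.closure_le]
    rintro _ ⟨I, hI, rfl⟩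
    rcases hI with hI | ⟨x, hx, hI⟩
    · have e : I = pr v ^ 2 := by
        apply Units.ext
        rw [hI, Units.val_pow_eq_pow_val]
        rfl
      rw [e, map_pow, mk_pr]
      exact Subgroup.mem_zpowers _
    · have h1 : ClassGroup.mk F I = 1 := by
        have hx0 : x ≠ 0 := by
          rintro rfl
          rw [Algebra.norm_zero] at hx
          exact lt_irrefl _ hx
        exact (MonoidHom.mem_ker (f := ClassGroup.mk F)).1 ((ker_iff I).2 ⟨x, hx0, hI⟩)
      rw [SetLike.mem_coe, h1]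
      exact Subgroup.one_mem _
  · rw [Subgroup.zpowers_le]
    apply Subgroup.subset_closure
    refine ⟨pr v ^ 2, Or.inl ?_, ?_⟩
    · rw [Units.val_pow_eq_pow_val]
      rfl
    · rw [map_pow, mk_pr]

section five

variable {a : ℕ} {f : F}

/-- an element of `v` is divisible by `2` -/
private theorem two_dvd (hF : Module.finrank ℚ F = 2) (hsf : Squarefree a) (ha : a % 8 = 5)
    (hf : f ^ 2 = (a : F)) (v : HeightOneSpectrum (𝓞 F)) (hv : (2 : 𝓞 F) ∈ v.asIdeal)
    {y : 𝓞 F} (hy : y ∈ v.asIdeal) : (2 : 𝓞 F) ∣ y := by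
  -- the norm of `v` is even
  have hN2 : Algebra.norm ℤ (2 : 𝓞 F) = 4 := by
    have h1 : (2 : 𝓞 F) = algebraMap ℤ (𝓞 F) 2 := by simp
    rw [h1, Algebra.norm_algebraMap, RingOfIntegers.rank, hF]
    norm_num
  have h1 : ((Ideal.absNorm v.asIdeal : ℕ) : ℤ) ∣ 4 := by
    rw [← hN2]
    exact Ideal.absNorm_dvd_norm_of_mem hv
  have h2 : Ideal.absNorm v.asIdeal ∣ 2 ^ 2 := by exact_mod_cast h1
  have h3 : Ideal.absNorm v.asIdeal ≠ 1 := by
    rw [Ne, Ideal.absNorm_eq_one_iff]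
    exact v.isPrime.ne_top
  have h4 : 2 ∣ Ideal.absNorm v.asIdeal := by
    obtain ⟨k, hk, he⟩ := (Nat.dvd_prime_pow Nat.prime_two).1 h2
    rw [he] at h3 ⊢
    rcases Nat.eq_zero_or_pos k with rfl | hk0
    · exact absurd (pow_zero 2) h3
    · exact dvd_pow_self 2 hk0.ne'
  have h5 : (2 : ℤ) ∣ Algebra.norm ℤ y := by
    have h6 : ((2 : ℕ) : ℤ) ∣ ((Ideal.absNorm v.asIdeal : ℕ) : ℤ) := Int.natCast_dvd_natCast.2 h4
    exact (by exact_mod_cast h6 : (2 : ℤ) ∣ _).trans (Ideal.absNorm_dvd_norm_of_mem hy)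
  obtain ⟨n, hn⟩ := h5
  obtain ⟨u, w, hy1, hy2⟩ := Rf.f_half hF hf hsf ha y
  obtain ⟨b, hb⟩ : ∃ b : ℤ, (a : ℤ) = 8 * b + 5 := ⟨(a : ℤ) / 8, by omega⟩
  rw [hn, hb] at hy2
  -- parities
  have hu : u % 2 = 0 ∧ w % 2 = 0 := by
    rcases Int.even_or_odd' u with ⟨u', rfl | rfl⟩ <;> rcases Int.even_or_odd' w with ⟨w', rfl | rfl⟩
    · omega
    · exfalso
      ring_nf at hy2
      have : (4 * n * 2 - (4 * u' ^ 2 - 8 * b * (2 * w' + 1) ^ 2 - 20 * w' ^ 2 - 20 * w')) = - 5 := by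
        linear_combination hy2
      omega
    · exfalso
      have : (4 * (2 * n) - (4 * u' ^ 2 + 4 * u' - 4 * (8 * b + 5) * w' ^ 2)) = 1 := by
        linear_combination hy2
      have h9 : 4 * (8 * b + 5) * w' ^ 2 = 4 * ((8 * b + 5) * w' ^ 2) := by ring
      omega
    · exfalso
      obtain ⟨c, hc⟩ : ∃ c : ℤ, u' ^ 2 + u' = 2 * c := by
        have := Int.even_mul_succ_self u'
        obtain ⟨c, hc⟩ := this
        exact ⟨c, by linear_combination hc⟩
      obtain ⟨e, he⟩ : ∃ e : ℤ, w' ^ 2 + w' = 2 * e := by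
        have := Int.even_mul_succ_self w'
        obtain ⟨c, hc⟩ := this
        exact ⟨c, by linear_combination hc⟩
      have : 8 * n - (8 * c - 8 * (5 * e) - 8 * (b * (2 * w' + 1) ^ 2)) = -4 := by
        linear_combination hy2 + 4 * hc - 20 * he
      omega
  obtain ⟨u', rfl⟩ : ∃ u', u = 2 * u' := ⟨u / 2, by omega⟩
  obtain ⟨w', rfl⟩ : ∃ w', w = 2 * w' := ⟨w / 2, by omega⟩
  have hy3 : 2 * n = u' ^ 2 - (8 * b + 5) * w' ^ 2 := by
    have : 4 * (2 * n) = 4 * (u' ^ 2 - (8 * b + 5) * w' ^ 2) := by linear_combination hy2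
    omega
  obtain ⟨m, hm⟩ : ∃ m : ℤ, 4 * m = u' ^ 2 - (8 * b + 5) * w' ^ 2 := by
    rcases Int.even_or_odd' u' with ⟨c, rfl | rfl⟩ <;> rcases Int.even_or_odd' w' with ⟨e, rfl | rfl⟩
    · exact ⟨c ^ 2 - (8 * b + 5) * e ^ 2, by ring⟩
    · exfalso
      have : 2 * n - 2 * (2 * c ^ 2 - (8 * b + 5) * (2 * e ^ 2 + 2 * e) - 4 * b - 3) = 1 := by
        linear_combination hy3
      omega
    · exfalso
      have : 2 * n - 2 * (2 * c ^ 2 + 2 * c - 2 * ((8 * b + 5) * e ^ 2)) = 1 := by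
        linear_combination hy3
      omega
    · exact ⟨c ^ 2 + c - (8 * b + 5) * (e ^ 2 + e) - 2 * b - 1, by ring⟩
  have hz : IsIntegral ℤ (((u' : F) + w' * f) / 2) := by
    refine ⟨Polynomial.X ^ 2 - Polynomial.C u' * Polynomial.X + Polynomial.C m, by monicity!, ?_⟩
    have hm' : (4 : F) * m = (u' : F) ^ 2 - (a : F) * w' ^ 2 := by
      have h7 : ((a : ℤ) : F) = ((8 * b + 5 : ℤ) : F) := by rw [hb]
      have h8 : ((4 * m : ℤ) : F) = ((u' ^ 2 - (8 * b + 5) * w' ^ 2 : ℤ) : F) := by rw [hm]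
      rw [Int.cast_natCast] at h7
      rw [h7]
      push_cast at h8 ⊢
      exact h8
    rw [Polynomial.eval₂_add, Polynomial.eval₂_sub, Polynomial.eval₂_mul,
      Polynomial.eval₂_pow, Polynomial.eval₂_X, Polynomial.eval₂_C, Polynomial.eval₂_C,
      eq_intCast, eq_intCast]
    linear_combination (1 / 4 : F) * hm' + (1 / 4 : F) * (w' : F) ^ 2 * hf
  refine ⟨⟨_, hz⟩, ?_⟩
  apply RingOfIntegers.coe_injective
  rw [map_mul]
  show (y : F) = algebraMap (𝓞 F) F 2 * (((u' : F) + w' * f) / 2)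
  rw [map_ofNat]
  have hy4 : 2 * (y : F) = ((2 * u' : ℤ) : F) + ((2 * w' : ℤ) : F) * f := hy1
  push_cast at hy4
  linear_combination (1 / 2 : F) * hy4

/-- the ideals of the subgroup have a generator of positive norm -/
private theorem mem_pp (hF : Module.finrank ℚ F = 2) (hsf : Squarefree a) (ha : a % 8 = 5)
    (hf : f ^ 2 = (a : F)) (v : HeightOneSpectrum (𝓞 F)) (hv : (2 : 𝓞 F) ∈ v.asIdeal)
    {I : (FractionalIdeal (𝓞 F)⁰ F)ˣ} (hI : I ∈ Subgroup.closure (gens v)) : Pp I := by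
  have hv2 : v.asIdeal = Ideal.span {(2 : 𝓞 F)} := by
    apply le_antisymm
    · intro y hy
      exact Ideal.mem_span_singleton.2 (two_dvd hF hsf ha hf v hv hy)
    · rw [Ideal.span_singleton_le_iff_mem]
      exact hv
  induction hI using Subgroup.closure_induction with
  | mem I hI =>
    rcases hI with hI | hI
    · refine ⟨4, ?_, ?_⟩
      · have h1 : (4 : F) = algebraMap ℚ F 4 := by simp
        rw [h1, Algebra.norm_algebraMap, hF]
        norm_num
      · rw [hI, hv2, FractionalIdeal.coeIdeal_span_singleton, FractionalIdeal.spanSingleton_pow]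
        congr 1
        rw [map_ofNat]
        norm_num
    · exact hI
  | one => exact ⟨1, by rw [map_one]; norm_num, by rw [Units.val_one, FractionalIdeal.spanSingleton_one]⟩
  | mul I J _ _ hI hJ =>
    obtain ⟨x, hx, hx'⟩ := hI
    obtain ⟨y, hy, hy'⟩ := hJ
    exact ⟨x * y, by rw [map_mul]; positivity, by
      rw [Units.val_mul, hx', hy', FractionalIdeal.spanSingleton_mul_spanSingleton]⟩
  | inv I _ hI =>
    obtain ⟨x, hx, hx'⟩ := hI
    refine ⟨x⁻¹, ?_, ?_⟩
    · rw [Algebra.norm_inv]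
      exact inv_pos.2 hx
    · rw [Units.val_inv_eq_inv_val, hx', FractionalIdeal.spanSingleton_inv]

/-- the class 5 -/
private theorem index5 (hF : Module.finrank ℚ F = 2) (hsf : Squarefree a) (ha : a % 8 = 5)
    (hf : f ^ 2 = (a : F)) (v : HeightOneSpectrum (𝓞 F)) (hv : (2 : 𝓞 F) ∈ v.asIdeal)
    (h : ¬ 8 ∣ (Subgroup.closure (gens v)).index) :
    ¬ 4 ∣ classNumber F ∨
      (¬ 8 ∣ classNumber F ∧ ∃ u : (𝓞 F)ˣ, Algebra.norm ℤ (u : 𝓞 F) = -1) := by
  set N := Subgroup.closure (gens v) with hN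
  set P := (ClassGroup.mk F : (FractionalIdeal (𝓞 F)⁰ F)ˣ →* ClassGroup (𝓞 F)).ker with hP
  have hd : ∀ w : ℚ, w ^ 2 ≠ (((a : ℤ) : ℤ) : ℚ) := by
    intro w h
    have h1 : IsSquare (a : ℚ) := ⟨w, by rw [← pow_two, h]; simp⟩
    obtain ⟨b, hb⟩ := Rat.isSquare_natCast_iff.1 h1
    have h2 : IsUnit b := hsf b ⟨1, by rw [hb, mul_one]⟩
    rw [Nat.isUnit_iff] at h2
    rw [hb, h2] at ha
    norm_num at ha
  have hf' : f ^ 2 = (((a : ℤ) : ℤ) : F) := by
    rw [hf, Int.cast_natCast]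
  have ha0 : (0 : ℚ) < a := by
    have : 0 < a := by omega
    exact_mod_cast this
  have hf0 : f ≠ 0 := by
    rintro rfl
    rw [zero_pow (by norm_num)] at hf
    have h1 : a = 0 := by
      have h2 := hf.symm
      exact_mod_cast h2
    omega
  have hNP : N ≤ P := by
    intro I hI
    obtain ⟨x, hx, hx'⟩ := mem_pp hF hsf ha hf v hv hI
    refine (ker_iff I).2 ⟨x, ?_, hx'⟩
    rintro rfl
    rw [Algebra.norm_zero] at hx
    exact lt_irrefl _ hx
  have hPi : P.index = classNumber F := by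
    rw [hP, Subgroup.index_ker]
    have hsurj : (ClassGroup.mk F : (FractionalIdeal (𝓞 F)⁰ F)ˣ →* ClassGroup (𝓞 F)).range = ⊤ := by
      rw [MonoidHom.range_eq_top]
      intro c
      obtain ⟨I, rfl⟩ := ClassGroup.mk0_surjective c
      exact ⟨FractionalIdeal.mk0 F I, ClassGroup.mk_mk0 F I⟩
    rw [hsurj, classNumber, ← Nat.card_eq_fintype_card]
    exact Nat.card_congr (Equiv.Set.univ _)
  have hidx : N.relIndex P * P.index = N.index := Subgroup.relIndex_mul_index hNP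
  rw [hPi] at hidx
  by_cases h4 : 4 ∣ classNumber F
  · refine Or.inr ⟨fun h8 => h ?_, ?_⟩
    · rw [← hidx]
      exact h8.mul_left _
    · by_contra hu
      apply h
      rw [← hidx]
      -- the class of `f`
      let φ : (FractionalIdeal (𝓞 F)⁰ F)ˣ := toPrincipalIdeal (𝓞 F) F (Units.mk0 f hf0)
      have hφ : (φ : FractionalIdeal (𝓞 F)⁰ F) = FractionalIdeal.spanSingleton (𝓞 F)⁰ f :=
        coe_toPrincipalIdeal _
      have hφP : φ ∈ P := (ker_iff φ).2 ⟨f, hf0, hφ⟩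
      have hnf : Algebra.norm ℚ f = - (a : ℚ) := by
        have := normK hF hf' hd 0 1
        rw [Rat.cast_zero, Rat.cast_one, zero_add, one_mul] at this
        rw [this]
        push_cast
        ring
      have hφN : φ ∉ N := by
        intro hc
        obtain ⟨x, hx, hx'⟩ := mem_pp hF hsf ha hf v hv hc
        rw [hφ] at hx'
        obtain ⟨u, hu'⟩ := FractionalIdeal.spanSingleton_eq_spanSingleton.1 hx'
        apply hu
        have hu2 : ((u : 𝓞 F) : F) * f = x := hu'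
        have h1 : Algebra.norm ℚ ((u : 𝓞 F) : F) * Algebra.norm ℚ f = Algebra.norm ℚ x := by
          rw [← map_mul, hu2]
        rw [← Algebra.coe_norm_int, hnf] at h1
        have h2 : IsUnit (Algebra.norm ℤ (u : 𝓞 F)) := u.isUnit.map _
        rcases Int.isUnit_iff.1 h2 with h3 | h3
        · exfalso
          rw [h3] at h1
          push_cast at h1
          linarith
        · exact ⟨u, h3⟩
      have h2 : 2 ∣ N.relIndex P := by
        have hφ2 : φ ^ 2 ∈ N := by
          apply Subgroup.subset_closure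
          refine Or.inr ⟨(a : F), ?_, ?_⟩
          · have h1 : (a : F) = algebraMap ℚ F a := by simp
            rw [h1, Algebra.norm_algebraMap]
            positivity
          · rw [Units.val_pow_eq_pow_val, hφ, FractionalIdeal.spanSingleton_pow, hf]
        have hg1 : (QuotientGroup.mk ⟨φ, hφP⟩ : P ⧸ N.subgroupOf P) ≠ 1 := by
          rw [Ne, QuotientGroup.eq_one_iff, Subgroup.mem_subgroupOf]
          exact hφN
        have hg2 : (QuotientGroup.mk ⟨φ, hφP⟩ : P ⧸ N.subgroupOf P) ^ 2 = 1 := by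
          rw [← QuotientGroup.mk_pow, QuotientGroup.eq_one_iff, Subgroup.mem_subgroupOf]
          exact hφ2
        have h3 := orderOf_eq_prime hg2 hg1
        have h4 := orderOf_dvd_natCard (QuotientGroup.mk ⟨φ, hφP⟩ : P ⧸ N.subgroupOf P)
        rw [h3] at h4
        exact h4
      exact (mul_dvd_mul h2 h4 : 2 * 4 ∣ _)
  · exact Or.inl h4

end five

private theorem cl_pr {K : Type*} [Field K] [NumberField K] (v : HeightOneSpectrum (𝓞 K)) :
    cl (pr v) = ClassGroup.mk0 ⟨v.asIdeal, mem_nonZeroDivisors_of_ne_zero v.ne_bot⟩ := by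
  rw [← ClassGroup.mk_mk0 K]
  rfl

private theorem index_sq {G : Type*} [Group G] [Finite G] (g : G)
    (h : ¬ 8 ∣ (Subgroup.zpowers (g ^ 2)).index) :
    ¬ 8 ∣ Nat.card G ∨ ¬ 4 ∣ (Subgroup.zpowers g).index := by
  by_contra hc
  push Not at hc
  obtain ⟨h8, h4⟩ := hc
  apply h
  have e1 := (Subgroup.zpowers g).index_mul_card
  have e2 := (Subgroup.zpowers (g ^ 2)).index_mul_card
  rw [Nat.card_zpowers] at e1 e2
  have ho : 0 < orderOf g := orderOf_pos g
  rcases Nat.even_or_odd (orderOf g) with he | hod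
  · obtain ⟨k, hk⟩ := he
    have hk2 : orderOf g = 2 * k := by omega
    have hk0 : 0 < k := by omega
    have e3 : orderOf (g ^ 2) = k := by
      rw [orderOf_pow, hk2, Nat.gcd_mul_right_left, Nat.mul_div_cancel_left _ (by norm_num)]
    obtain ⟨m, hm⟩ := h4
    refine ⟨m, ?_⟩
    rw [e3] at e2
    rw [hk2, hm] at e1
    have : (Subgroup.zpowers (g ^ 2)).index * k = 8 * m * k := by
      rw [e2, ← e1]; ring
    exact Nat.eq_of_mul_eq_mul_right hk0 this
  · have e3 : orderOf (g ^ 2) = orderOf g := by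
      rw [orderOf_pow, (Nat.coprime_two_right.2 hod).gcd_eq_one, Nat.div_one]
    rw [e3] at e2
    have hc : Nat.Coprime 8 (orderOf g) := by
      have : Nat.Coprime (2 ^ 3) (orderOf g) := Nat.Coprime.pow_left 3 (Nat.coprime_two_left.2 hod)
      simpa using this
    rw [← e2] at h8
    exact hc.dvd_of_dvd_mul_right h8

/-- the theorem -/
theorem main_nc (hF : Module.finrank ℚ F = 2) {a : ℕ} (ha : Squarefree a) {f : F}
    (hf : a % 8 = 5 ∧ f ^ 2 = a ∨ a % 8 = 7 ∧ f ^ 2 = -a) (v : HeightOneSpectrum (𝓞 F))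
    (hv : (2 : 𝓞 F) ∈ v.asIdeal) (h : ¬ 8 ∣ (Subgroup.closure (gens v)).index) :
    IsCongruent a := by
  rcases hf with ⟨h5, hf⟩ | ⟨h7, hf⟩
  · exact N5.final8 ha h5 hF hf (index5 hF ha h5 hf v hv h)
  · rw [index7 hF h7 hf v] at h
    have hb : T.Base F a f := ⟨hF, hf, ha, h7⟩
    rcases index_sq _ h with h | h
    · exact N7.main7 hb h
    · refine T.main (s := f) hb hv ?_
      rwa [cl_inv, Subgroup.zpowers_inv, cl_pr]

end Pool.Agent.Work.MP_8efaaa_nt.NC
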